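import Pool.Agent.H113R3.WS.Main

/-!
# A weakly 1-sequentially hypercyclic operator that is not hypercyclic

The space is the closure, in the bounded functions on `ℕ × ℕ`, of the functions `f(i, t)` with
finitely many nonzero levels `i`, each level being eventually constant in `t` (it is isometric to
the space `c₀(ℕ; c)`, hence isomorphic to `c₀`). The operator is the weighted backward shift
`(T f)(i, t) = w(i, t) f(i + 1, t)` with weights `1/2`, `1`, `2` such that for every `n` some column
`t` has `w(0, t) ⋯ w(n - 1, t) = 1`, while at the times `n = 2·3^k` the product is `2^(3^k)` in every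
column except the column `t = k`.
-/

open Filter Topology

namespace Pool.Agent.Results.MP_33c00b_an.WeakOneSeqNotHypercyclic

section defs

variable {B : Type} [NormedAddCommGroup B] [NormedSpace ℂ B]

/-- `T` is hypercyclic: some orbit `{x, T x, T² x, …}` is dense for the norm topology. -/
def IsHypercyclic (T : B →L[ℂ] B) : Prop :=
  ∃ x : B, Dense (Set.range fun n : ℕ => (T ^ n) x)

/-- `T` is weakly 1-sequentially hypercyclic: there is `x` such that for every `y` there is a
strictly increasing sequence `n` of nonnegative integers with `T ^ (n k) x → y` weakly, i.e.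
`φ (T ^ (n k) x) → φ y` for every continuous linear functional `φ`. -/
def IsWeaklyOneSequentiallyHypercyclic (T : B →L[ℂ] B) : Prop :=
  ∃ x : B, ∀ y : B, ∃ n : ℕ → ℕ, StrictMono n ∧
    ∀ φ : B →L[ℂ] ℂ, Tendsto (fun k => φ ((T ^ n k) x)) atTop (𝓝 (φ y))

end defs

/-- There are a separable complex Banach space and a bounded operator on it which is weakly
1-sequentially hypercyclic but not hypercyclic. -/
theorem result : ∃ (B : Type) (_ : NormedAddCommGroup B) (_ : NormedSpace ℂ B)
    (_ : CompleteSpace B) (_ : TopologicalSpace.SeparableSpace B) (T : B →L[ℂ] B),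
    IsWeaklyOneSequentiallyHypercyclic T ∧ ¬ IsHypercyclic T :=
  ⟨Pool.Agent.H113R3.WS.X ℂ, inferInstance, inferInstance, inferInstance,
    (Pool.Agent.H113R3.WS.isSeparable_X ℂ).separableSpace, Pool.Agent.H113R3.WS.TX ℂ,
    Pool.Agent.H113R3.WS.weakly_one_seq ℂ,
    fun ⟨x, hx⟩ => Pool.Agent.H113R3.WS.not_hypercyclic ℂ x hx⟩

end Pool.Agent.Results.MP_33c00b_an.WeakOneSeqNotHypercyclic
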